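import Pool.Agent.Run7.h719.RG.Pal
import Pool.Agent.Run7.h719.NV.Fin

/-!
# The distance to the `r`-th neighbour
-/

open MeasureTheory Set Filter Topology

namespace Run7.h719.RG

open Pool.Agent.Y749.Rig
open H370 (mult good_zeta NN NN_mono zset zcount)
open Run7.h719.NV (cnt mean_sq sum_mm nv low_ord)
open SG (ord NZ)

/-- the upper bound for the number variance -/
noncomputable def VV (β : ℝ) : ℝ :=
  (β - 2 * ∫ x in (0 : ℝ)..β, (β - x) * (Real.sin (Real.pi * x) / (Real.pi * x)) ^ 2) +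
    168 / 1000 + 5 / 100 / β

lemma var_le (RH : RiemannHypothesis)
    (hB : ∀ ε : ℝ, 0 < ε → ∀ᶠ T in atTop, ∀ α ∈ Icc (1 : ℝ) (3 / 2), 3 / 2 - α - ε ≤ Fr T α)
    {β : ℝ} (hβ : 0 < β) : ∀ᶠ T in atTop,
      ∫ t in (0 : ℝ)..T, ((NN riemannZeta t (t + 2 * Real.pi * β / Real.log T) : ℝ) - β) ^ 2 ≤
        VV β * T := by
  filter_upwards [nv RH hB hβ, eventually_gt_atTop 0] with T h1 h2
  have h3 := h1.2
  rw [one_div, inv_mul_le_iff₀ h2] at h3
  refine h3.trans (le_of_eq ?_)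
  unfold VV
  ring

lemma VV_nonneg (RH : RiemannHypothesis)
    (hB : ∀ ε : ℝ, 0 < ε → ∀ᶠ T in atTop, ∀ α ∈ Icc (1 : ℝ) (3 / 2), 3 / 2 - α - ε ≤ Fr T α)
    {β : ℝ} (hβ : 0 < β) : 0 ≤ VV β := by
  obtain ⟨T, h1, h2⟩ := ((var_le RH hB hβ).and (eventually_gt_atTop 0)).exists
  have h3 : 0 ≤ ∫ t in (0 : ℝ)..T,
      ((NN riemannZeta t (t + 2 * Real.pi * β / Real.log T) : ℝ) - β) ^ 2 :=
    intervalIntegral.integral_nonneg h2.le fun t _ => sq_nonneg _
  have h4 := h3.trans h1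
  by_contra hcon
  push Not at hcon
  nlinarith

/-- the mean square of the number of zeros about another centre -/
theorem shift_var (RH : RiemannHypothesis)
    (hB : ∀ ε : ℝ, 0 < ε → ∀ᶠ T in atTop, ∀ α ∈ Icc (1 : ℝ) (3 / 2), 3 / 2 - α - ε ≤ Fr T α)
    {L r ε : ℝ} (hL : 0 < L) (hr : 0 ≤ r) (hε : 0 < ε) : ∀ᶠ T in atTop,
      ∫ t in (0 : ℝ)..T, ((NN riemannZeta t (t + 2 * Real.pi * L / Real.log T) : ℝ) - r) ^ 2 ≤
        (VV L + (L - r) ^ 2 + ε) * T := by
  obtain ⟨m', hm'0, hm'⟩ := low_ord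
  obtain ⟨m, hmd⟩ : ∃ m : ℝ, m = min m' 1 := ⟨_, rfl⟩
  have hm0 : 0 < m := by rw [hmd]; exact lt_min hm'0 one_pos
  have hm1 : m ≤ 1 := by rw [hmd]; exact min_le_right _ _
  have hm : ∀ T : ℝ, ∀ s ∈ ZZ T, m ≤ s.im := fun T s hs => by
    rw [hmd]; exact (min_le_left _ _).trans (hm' T s hs)
  obtain ⟨C, hC, hz⟩ := zcount good_zeta
  obtain ⟨e, he⟩ : ∃ e : ℝ, e = ε / (1 + 2 * L + 2 * (L + r) * L) := ⟨_, rfl⟩
  have he0 : 0 < e := by rw [he]; positivity
  have hes : e * (1 + 2 * L + 2 * (L + r) * L) = ε := by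
    rw [he]
    field_simp
  obtain ⟨T0, hT0, hNT⟩ := Pool.Agent.W54.TCF.NT_asymp' e he0
  have hpi := Real.pi_pos
  have hlogT : ∀ᶠ T : ℝ in atTop, 2 * Real.pi * L / m < Real.log T :=
    Real.tendsto_log_atTop.eventually_gt_atTop _
  have hlog2 : ∀ᶠ T : ℝ in atTop, Real.log T ≤ e / (2 * Real.pi * L * (C + C ^ 2)) * T := by
    have h1 := Real.isLittleO_log_id_atTop.def (show 0 < e / (2 * Real.pi * L * (C + C ^ 2)) by
      positivity)
    filter_upwards [h1, eventually_gt_atTop 1] with T h2 h3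
    rw [Real.norm_eq_abs, Real.norm_eq_abs, id, abs_of_pos (Real.log_pos h3),
      abs_of_pos (by linarith)] at h2
    exact h2
  filter_upwards [var_le RH hB hL, hlogT, hlog2, eventually_ge_atTop T0] with T h1 h2 h3 h5
  have hT : 10 ≤ T := hT0.trans h5
  have hTp : 0 < T := by linarith
  have hLL := one_lt_log (show 3 ≤ T by linarith)
  have hL0 : 0 < Real.log T := by linarith
  obtain ⟨h, hh⟩ : ∃ h : ℝ, h = 2 * Real.pi * L / Real.log T := ⟨_, rfl⟩
  have hh0 : 0 < h := by rw [hh]; positivity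
  have hhm : h < m := by
    rw [hh, div_lt_iff₀ hL0]
    rw [div_lt_iff₀ hm0] at h2
    linarith
  obtain ⟨a1, -⟩ := mean_sq hm1 hm hh0 hhm (show 2 ≤ T by linarith) hL.le
  obtain ⟨-, a2⟩ := mean_sq hm1 hm hh0 hhm (show 2 ≤ T by linarith) hr
  rw [sum_mm] at a1 a2
  obtain ⟨n1, n2⟩ := hNT T h5
  have hz' := hz T (by linarith)
  rw [← hh] at h1 ⊢
  obtain ⟨Z, hZ⟩ : ∃ Z : ℝ, Z = NN riemannZeta (T - 1) (T + 1) := ⟨_, rfl⟩
  rw [← hZ] at a1 a2 hz'
  have hZ0 : 0 ≤ Z := by rw [hZ]; exact Nat.cast_nonneg _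
  obtain ⟨N, hN⟩ : ∃ N : ℝ, N = NN riemannZeta 0 T := ⟨_, rfl⟩
  rw [← hN] at a1 a2 n1 n2
  obtain ⟨S, hS⟩ : ∃ S : ℝ, S = ∫ t, cnt T h t ^ 2 := ⟨_, rfl⟩
  rw [← hS] at a1 a2
  obtain ⟨V, hV⟩ : ∃ V : ℝ, V = ∫ t in (0 : ℝ)..T, ((NN riemannZeta t (t + h) : ℝ) - L) ^ 2 :=
    ⟨_, rfl⟩
  rw [← hV] at a1 h1
  obtain ⟨W, hW⟩ : ∃ W : ℝ, W = ∫ t in (0 : ℝ)..T, ((NN riemannZeta t (t + h) : ℝ) - r) ^ 2 :=
    ⟨_, rfl⟩
  rw [← hW] at a2 ⊢
  -- the small terms
  have z1 : h * Z ≤ 2 * Real.pi * L * C := by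
    calc h * Z ≤ h * (C * Real.log T) := by gcongr
      _ = 2 * Real.pi * L * C := by rw [hh]; field_simp
  have z2 : h * Z ^ 2 ≤ 2 * Real.pi * L * C ^ 2 * Real.log T := by
    calc h * Z ^ 2 ≤ h * (C * Real.log T) ^ 2 := by gcongr
      _ = 2 * Real.pi * L * C ^ 2 * Real.log T := by rw [hh]; field_simp
  have z3 : 2 * Real.pi * L * (C + C ^ 2) * Real.log T ≤ e * T := by
    have := mul_le_mul_of_nonneg_left h3 (show 0 ≤ 2 * Real.pi * L * (C + C ^ 2) by positivity)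
    refine this.trans (le_of_eq ?_)
    field_simp
  have z4 : h * Z ≤ e * T := by
    refine z1.trans (le_trans ?_ z3)
    have : 2 * Real.pi * L * C * 1 ≤ 2 * Real.pi * L * (C + C ^ 2) * Real.log T := by
      apply mul_le_mul _ hLL.le (by norm_num) (by positivity)
      have : 0 ≤ 2 * Real.pi * L * C ^ 2 := by positivity
      linarith
    linarith
  have z5 : h * Z ^ 2 ≤ e * T := by
    refine z2.trans (le_trans ?_ z3)
    apply mul_le_mul_of_nonneg_right _ hL0.le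
    have : 0 ≤ 2 * Real.pi * L * C := by positivity
    linarith
  have hX : h * (T / (2 * Real.pi) * Real.log T) = L * T := by
    rw [hh]
    field_simp
  have n1' : (1 - e) * (L * T) ≤ h * N := by
    have := mul_le_mul_of_nonneg_left n1 hh0.le
    calc (1 - e) * (L * T) = h * ((1 - e) * (T / (2 * Real.pi) * Real.log T)) := by
          rw [← hX]; ring
      _ ≤ _ := this
  have n2' : h * N ≤ (1 + e) * (L * T) := by
    have := mul_le_mul_of_nonneg_left n2 hh0.le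
    calc h * N ≤ h * ((1 + e) * (T / (2 * Real.pi) * Real.log T)) := this
      _ = _ := by rw [← hX]; ring
  have k1 := mul_le_mul_of_nonneg_left n2' (show 0 ≤ 2 * L by positivity)
  have k2 := mul_le_mul_of_nonneg_left n1' (show 0 ≤ 2 * r by positivity)
  have k3 := mul_le_mul_of_nonneg_left z4 (show 0 ≤ 2 * L by positivity)
  have k4 : (VV L + (L - r) ^ 2 + ε) * T = VV L * T + (L - r) ^ 2 * T +
      e * (1 + 2 * L + 2 * (L + r) * L) * T := by
    rw [hes]
    ring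
  rw [k4]
  have k5 : W ≤ V + 2 * L * (h * N) + 2 * L * (h * Z) + h * Z ^ 2 - 2 * r * (h * N) - T * L ^ 2 +
      T * r ^ 2 := by linarith
  have k6 : V + 2 * L * ((1 + e) * (L * T)) + 2 * L * (e * T) + e * T -
      2 * r * ((1 - e) * (L * T)) - T * L ^ 2 + T * r ^ 2 = V + (L - r) ^ 2 * T +
      e * (1 + 2 * L + 2 * (L + r) * L) * T := by ring
  linarith

lemma pre : ∃ n1 : ℕ, 1 ≤ n1 ∧ ∀ n, n1 ≤ n → 2 ≤ ord n := by
  obtain ⟨n1', hn1'⟩ := (SG.ord_tendsto.eventually_ge_atTop 2).exists_forall_of_atTop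
  exact ⟨n1' + 1, by omega, fun n hn => hn1' n (by omega)⟩

/-- large distances -/
lemma sumU {L ε : ℝ} (hL : 0 < L) (hε : 0 < ε) (r : ℕ) {a b c : ℝ}
    (hq : ∀ x : ℤ, max (-(x : ℝ)) 0 ≤ qd a b c x) : ∀ᶠ T in atTop,
    ∑ n ∈ Finset.Icc 1 (NZ T - r),
      max ((ord (n + r) - ord n) * Real.log T / (2 * Real.pi) - L) 0 ≤
      Real.log T / (2 * Real.pi) * (∫ t in (0 : ℝ)..T,
        qd a b c ((NN riemannZeta t (t + 2 * Real.pi * L / Real.log T) : ℝ) - r)) +
      ε * (T * Real.log T / (2 * Real.pi)) := by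
  classical
  obtain ⟨n1, hn1, hord⟩ := pre
  have hpi := Real.pi_pos
  obtain ⟨K, hK⟩ : ∃ K : ℝ, K = ∑ n ∈ Finset.range n1, |ord (n + r) - ord n| := ⟨_, rfl⟩
  filter_upwards [Real.tendsto_log_atTop.eventually_ge_atTop (2 * Real.pi * L + 1),
    eventually_ge_atTop 1, eventually_ge_atTop (K / ε)] with T h1 h2 h3
  have hpl : 0 < 2 * Real.pi * L := by positivity
  have hL0 : 0 < Real.log T := by linarith
  obtain ⟨h, hh⟩ : ∃ h : ℝ, h = 2 * Real.pi * L / Real.log T := ⟨_, rfl⟩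
  have hh0 : 0 ≤ h := by rw [hh]; positivity
  have hh1 : h ≤ 1 := by
    rw [hh, div_le_one hL0]
    linarith
  rw [← hh]
  have hp := palmU h2 hh0 r hn1 (fun n hn => by have := hord n hn; linarith) hq
  have hc : 0 < Real.log T / (2 * Real.pi) := by positivity
  have e1 : ∀ n : ℕ, max ((ord (n + r) - ord n) * Real.log T / (2 * Real.pi) - L) 0 =
      Real.log T / (2 * Real.pi) * max (ord (n + r) - ord n - h) 0 := by
    intro n
    rw [mul_max_of_nonneg _ _ hc.le, mul_zero]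
    congr 1
    rw [hh]
    field_simp
  simp only [e1]
  rw [← Finset.mul_sum]
  have e2 : ∑ n ∈ Finset.Icc 1 (NZ T - r), max (ord (n + r) - ord n - h) 0 ≤
      (∑ n ∈ Finset.Icc n1 (NZ T - r), max (ord (n + r) - ord n - h) 0) + K := by
    have e3 : Finset.Icc 1 (NZ T - r) ⊆ Finset.Icc n1 (NZ T - r) ∪ Finset.range n1 := by
      intro k hk
      rw [Finset.mem_Icc] at hk
      rw [Finset.mem_union, Finset.mem_range, Finset.mem_Icc]
      omega
    have e4 : Disjoint (Finset.Icc n1 (NZ T - r)) (Finset.range n1) := by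
      rw [Finset.disjoint_left]
      intro k hk hk2
      rw [Finset.mem_range] at hk2
      rw [Finset.mem_Icc] at hk
      omega
    have e5 : ∑ n ∈ Finset.range n1, max (ord (n + r) - ord n - h) 0 ≤ K := by
      rw [hK]
      refine Finset.sum_le_sum fun n _ => max_le ?_ (abs_nonneg _)
      have := le_abs_self (ord (n + r) - ord n)
      linarith
    refine le_trans (Finset.sum_le_sum_of_subset_of_nonneg e3 fun k _ _ => le_max_right _ _) ?_
    rw [Finset.sum_union e4]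
    linarith
  have e6 : K ≤ ε * T := by
    rw [div_le_iff₀ hε] at h3
    linarith
  have e7 := mul_le_mul_of_nonneg_left (e2.trans (add_le_add hp e6)) hc.le
  refine e7.trans (le_of_eq ?_)
  ring

/-- small distances -/
lemma sumL {L ε : ℝ} (hL : 0 < L) (hε : 0 < ε) (r : ℕ) {a b c : ℝ}
    (hq : ∀ x : ℤ, max (x : ℝ) 0 ≤ qd a b c x) : ∀ᶠ T in atTop,
    ∑ n ∈ Finset.Icc 1 (NZ T - r),
      max (L - (ord (n + r) - ord n) * Real.log T / (2 * Real.pi)) 0 ≤
      Real.log T / (2 * Real.pi) * (∫ t in (0 : ℝ)..T,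
        qd a b c ((NN riemannZeta t (t + 2 * Real.pi * L / Real.log T) : ℝ) - r)) +
      ε * (T * Real.log T / (2 * Real.pi)) := by
  classical
  obtain ⟨n1, hn1, hord⟩ := pre
  have hpi := Real.pi_pos
  obtain ⟨K, hK⟩ : ∃ K : ℝ, K = ∑ n ∈ Finset.range n1, (|ord (n + r) - ord n| + 1) := ⟨_, rfl⟩
  filter_upwards [Real.tendsto_log_atTop.eventually_ge_atTop (2 * Real.pi * L + 1),
    eventually_ge_atTop 1, eventually_ge_atTop (K / ε)] with T h1 h2 h3
  have hpl : 0 < 2 * Real.pi * L := by positivity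
  have hL0 : 0 < Real.log T := by linarith
  obtain ⟨h, hh⟩ : ∃ h : ℝ, h = 2 * Real.pi * L / Real.log T := ⟨_, rfl⟩
  have hh0 : 0 ≤ h := by rw [hh]; positivity
  have hh1 : h ≤ 1 := by
    rw [hh, div_le_one hL0]
    linarith
  rw [← hh]
  have hp := palmL h2 hh0 r hn1 (fun n hn => by have := hord n hn; linarith) hq
  have hc : 0 < Real.log T / (2 * Real.pi) := by positivity
  have e1 : ∀ n : ℕ, max (L - (ord (n + r) - ord n) * Real.log T / (2 * Real.pi)) 0 =
      Real.log T / (2 * Real.pi) * max (h - (ord (n + r) - ord n)) 0 := by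
    intro n
    rw [mul_max_of_nonneg _ _ hc.le, mul_zero]
    congr 1
    rw [hh]
    field_simp
  simp only [e1]
  rw [← Finset.mul_sum]
  have e2 : ∑ n ∈ Finset.Icc 1 (NZ T - r), max (h - (ord (n + r) - ord n)) 0 ≤
      (∑ n ∈ Finset.Icc n1 (NZ T - r), max (h - (ord (n + r) - ord n)) 0) + K := by
    have e3 : Finset.Icc 1 (NZ T - r) ⊆ Finset.Icc n1 (NZ T - r) ∪ Finset.range n1 := by
      intro k hk
      rw [Finset.mem_Icc] at hk
      rw [Finset.mem_union, Finset.mem_range, Finset.mem_Icc]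
      omega
    have e4 : Disjoint (Finset.Icc n1 (NZ T - r)) (Finset.range n1) := by
      rw [Finset.disjoint_left]
      intro k hk hk2
      rw [Finset.mem_range] at hk2
      rw [Finset.mem_Icc] at hk
      omega
    have e5 : ∑ n ∈ Finset.range n1, max (h - (ord (n + r) - ord n)) 0 ≤ K := by
      rw [hK]
      refine Finset.sum_le_sum fun n _ => max_le ?_ (by positivity)
      have := neg_le_abs (ord (n + r) - ord n)
      linarith
    refine le_trans (Finset.sum_le_sum_of_subset_of_nonneg e3 fun k _ _ => le_max_right _ _) ?_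
    rw [Finset.sum_union e4]
    linarith
  have e6 : K ≤ ε * T := by
    rw [div_le_iff₀ hε] at h3
    linarith
  have e7 := mul_le_mul_of_nonneg_left (e2.trans (add_le_add hp e6)) hc.le
  refine e7.trans (le_of_eq ?_)
  ring

/-- from `T log T / 2π` to the number of the zeros -/
lemma toN {A ε : ℝ} (hA : 0 ≤ A) (hε : 0 < ε) : ∀ᶠ T in atTop,
    (A + ε / 2) * (T * Real.log T / (2 * Real.pi)) ≤ (A + ε) * (NZ T : ℝ) := by
  obtain ⟨η, hη⟩ : ∃ η : ℝ, η = ε / (2 * (A + ε)) := ⟨_, rfl⟩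
  have hη0 : 0 < η := by rw [hη]; positivity
  obtain ⟨T0, h⟩ := W200.HW.NZ_lower η hη0
  filter_upwards [eventually_ge_atTop T0, eventually_ge_atTop 1] with T h1 h2
  have h3 := h T h1
  have hpi := Real.pi_pos
  have hX : 0 ≤ T / (2 * Real.pi) * Real.log T := mul_nonneg (by positivity) (Real.log_nonneg h2)
  have h4 := mul_le_mul_of_nonneg_left h3 (show 0 ≤ A + ε by linarith)
  refine le_trans (le_of_eq ?_) h4
  rw [hη]
  field_simp
  ring

/-- the mean distance -/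
theorem mean_dist (RH : RiemannHypothesis)
    (hB : ∀ ε : ℝ, 0 < ε → ∀ᶠ T in atTop, ∀ α ∈ Icc (1 : ℝ) (3 / 2), 3 / 2 - α - ε ≤ Fr T α)
    {L ε : ℝ} (hL : 0 < L) (hε : 0 < ε) (r k : ℕ) : ∀ᶠ T in atTop,
    ∑ n ∈ Finset.Icc 1 (NZ T - r), |(ord (n + r) - ord n) * Real.log T / (2 * Real.pi) - L| ≤
      (((L - r) ^ 2 + VV L + k * (k + 1)) / (2 * k + 1) + ε) * (NZ T : ℝ) := by
  have hV := VV_nonneg RH hB hL
  have hk : (0 : ℝ) < 2 * k + 1 := by positivity
  have hch : ∀ x : ℤ, |(x : ℝ)| ≤ ((x : ℝ) ^ 2 + k * (k + 1)) / (2 * k + 1) := by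
    intro x
    rw [le_div_iff₀ hk]
    obtain ⟨y, hy⟩ : ∃ y : ℕ, y = x.natAbs := ⟨_, rfl⟩
    have h1 : |(x : ℝ)| = y := by
      rw [hy]
      rw [Nat.cast_natAbs, Int.cast_abs]
    have h2 : (x : ℝ) ^ 2 = (y : ℝ) ^ 2 := by
      rw [← h1, sq_abs]
    rw [h1, h2]
    rcases Nat.lt_or_ge k y with h3 | h3
    · have h4 : (k : ℝ) + 1 ≤ y := by exact_mod_cast h3
      nlinarith
    · have h4 : (y : ℝ) ≤ k := by exact_mod_cast h3
      nlinarith
  have hU : ∀ x : ℤ, max (-(x : ℝ)) 0 ≤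
      qd (1 / (2 * (2 * k + 1))) (-1 / 2) (k * (k + 1) / (2 * (2 * k + 1))) x := by
    intro x
    have h1 := hch x
    have e : qd (1 / (2 * (2 * k + 1))) (-1 / 2) (k * (k + 1) / (2 * (2 * k + 1))) (x : ℝ) =
        (((x : ℝ) ^ 2 + k * (k + 1)) / (2 * k + 1)) / 2 - x / 2 := by
      unfold qd
      field_simp
      ring
    rw [e]
    have h2 := le_abs_self (x : ℝ)
    have h3 := neg_le_abs (x : ℝ)
    exact max_le (by linarith) (by linarith)
  have hLq : ∀ x : ℤ, max (x : ℝ) 0 ≤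
      qd (1 / (2 * (2 * k + 1))) (1 / 2) (k * (k + 1) / (2 * (2 * k + 1))) x := by
    intro x
    have h1 := hch x
    have e : qd (1 / (2 * (2 * k + 1))) (1 / 2) (k * (k + 1) / (2 * (2 * k + 1))) (x : ℝ) =
        (((x : ℝ) ^ 2 + k * (k + 1)) / (2 * k + 1)) / 2 + x / 2 := by
      unfold qd
      field_simp
      ring
    rw [e]
    have h2 := le_abs_self (x : ℝ)
    have h3 := neg_le_abs (x : ℝ)
    exact max_le (by linarith) (by linarith)
  obtain ⟨A, hA⟩ : ∃ A : ℝ, A = ((L - r) ^ 2 + VV L + k * (k + 1)) / (2 * k + 1) := ⟨_, rfl⟩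
  have hA0 : 0 ≤ A := by rw [hA]; positivity
  rw [← hA]
  filter_upwards [sumU hL (show 0 < ε / 8 by positivity) r hU,
    sumL hL (show 0 < ε / 8 by positivity) r hLq, toN hA0 hε,
    shift_var RH hB hL (Nat.cast_nonneg r) (show 0 < ε / 4 by positivity),
    eventually_ge_atTop 2] with T h1 h2 h3 h4 h5
  have hpi := Real.pi_pos
  have hl : 0 < Real.log T := Real.log_pos (by linarith)
  obtain ⟨h, hh⟩ : ∃ h : ℝ, h = 2 * Real.pi * L / Real.log T := ⟨_, rfl⟩
  have hh0 : 0 ≤ h := by rw [hh]; positivity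
  rw [← hh] at h1 h2 h4
  have e1 : ∀ n : ℕ, |(ord (n + r) - ord n) * Real.log T / (2 * Real.pi) - L| =
      max ((ord (n + r) - ord n) * Real.log T / (2 * Real.pi) - L) 0 +
        max (L - (ord (n + r) - ord n) * Real.log T / (2 * Real.pi)) 0 := by
    intro n
    rcases le_total 0 ((ord (n + r) - ord n) * Real.log T / (2 * Real.pi) - L) with h6 | h6
    · rw [abs_of_nonneg h6, max_eq_left h6, max_eq_right (by linarith)]
      ring
    · rw [abs_of_nonpos h6, max_eq_right h6, max_eq_left (by linarith)]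
      ring
  simp only [e1]
  rw [Finset.sum_add_distrib]
  have i1 := qd_int (show 0 ≤ T by linarith) hh0 r (1 / (2 * (2 * (k : ℝ) + 1))) (-1 / 2)
    (k * (k + 1) / (2 * (2 * k + 1)))
  have i2 := qd_int (show 0 ≤ T by linarith) hh0 r (1 / (2 * (2 * (k : ℝ) + 1))) (1 / 2)
    (k * (k + 1) / (2 * (2 * k + 1)))
  have i3 := qd_int (show 0 ≤ T by linarith) hh0 r 1 0 0
  have e2 : (∫ t in (0 : ℝ)..T, qd (1 / (2 * (2 * k + 1))) (-1 / 2) (k * (k + 1) / (2 * (2 * k + 1)))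
      ((NN riemannZeta t (t + h) : ℝ) - r)) + (∫ t in (0 : ℝ)..T,
      qd (1 / (2 * (2 * k + 1))) (1 / 2) (k * (k + 1) / (2 * (2 * k + 1)))
      ((NN riemannZeta t (t + h) : ℝ) - r)) = 1 / (2 * k + 1) *
      (∫ t in (0 : ℝ)..T, ((NN riemannZeta t (t + h) : ℝ) - r) ^ 2) +
        k * (k + 1) / (2 * k + 1) * T := by
    rw [← intervalIntegral.integral_add i1 i2, ← intervalIntegral.integral_const_mul]
    have e3 : (k : ℝ) * (k + 1) / (2 * k + 1) * T = ∫ _t in (0 : ℝ)..T,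
        (k : ℝ) * (k + 1) / (2 * k + 1) := by
      rw [intervalIntegral.integral_const, smul_eq_mul]
      ring
    rw [e3, ← intervalIntegral.integral_add _ (by simp)]
    · refine intervalIntegral.integral_congr fun t _ => ?_
      show qd _ _ _ _ + qd _ _ _ _ = _
      unfold qd
      field_simp
      ring
    · refine (i3.const_mul (1 / (2 * (k : ℝ) + 1))).congr ?_
      intro t _
      show 1 / (2 * (k : ℝ) + 1) * qd 1 0 0 _ = _
      unfold qd
      ring
  have hc : 0 < Real.log T / (2 * Real.pi) := by positivity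
  have e4 : 1 / (2 * k + 1) * (∫ t in (0 : ℝ)..T, ((NN riemannZeta t (t + h) : ℝ) - r) ^ 2) +
        k * (k + 1) / (2 * k + 1) * T ≤ (A + ε / 4) * T := by
    have e5 : 1 / (2 * (k : ℝ) + 1) * ((VV L + (L - r) ^ 2 + ε / 4) * T) +
        k * (k + 1) / (2 * k + 1) * T ≤ (A + ε / 4) * T := by
      have e6 : 1 / (2 * (k : ℝ) + 1) * ((VV L + (L - r) ^ 2 + ε / 4) * T) +
        k * (k + 1) / (2 * k + 1) * T = (A + ε / 4 / (2 * k + 1)) * T := by
        rw [hA]
        field_simp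
        ring
      rw [e6]
      apply mul_le_mul_of_nonneg_right _ (by linarith)
      have : ε / 4 / (2 * (k : ℝ) + 1) ≤ ε / 4 := by
        apply div_le_self (by positivity)
        have : (0 : ℝ) ≤ k := Nat.cast_nonneg k
        linarith
      linarith
    refine le_trans ?_ e5
    have := mul_le_mul_of_nonneg_left h4 (show 0 ≤ 1 / (2 * (k : ℝ) + 1) by positivity)
    linarith
  rw [← e2] at e4
  have e7 := mul_le_mul_of_nonneg_left e4 hc.le
  have e8 : Real.log T / (2 * Real.pi) * ((A + ε / 4) * T) + ε / 8 * (T * Real.log T / (2 * Real.pi)) +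
      ε / 8 * (T * Real.log T / (2 * Real.pi)) = (A + ε / 2) * (T * Real.log T / (2 * Real.pi)) := by
    ring
  linarith

/-- the excess over a large distance -/
theorem excU (RH : RiemannHypothesis)
    (hB : ∀ ε : ℝ, 0 < ε → ∀ᶠ T in atTop, ∀ α ∈ Icc (1 : ℝ) (3 / 2), 3 / 2 - α - ε ≤ Fr T α)
    {L w ε : ℝ} (hL : 0 < L) (hw : 0 < w) (hε : 0 < ε) (r : ℕ) (hLr : L = r + w) : ∀ᶠ T in atTop,
    ∑ n ∈ Finset.Icc 1 (NZ T - r),
      max ((ord (n + r) - ord n) * Real.log T / (2 * Real.pi) - L) 0 ≤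
      (VV L / (4 * w) + ε) * (NZ T : ℝ) := by
  have hV := VV_nonneg RH hB hL
  have hU : ∀ x : ℤ, max (-(x : ℝ)) 0 ≤ qd (1 / (4 * w)) (-1 / 2) (w / 4) x := by
    intro x
    have e : qd (1 / (4 * w)) (-1 / 2) (w / 4) (x : ℝ) = ((x : ℝ) - w) ^ 2 / (4 * w) := by
      unfold qd
      field_simp
      ring
    rw [e]
    apply max_le
    · rw [le_div_iff₀ (by positivity)]
      nlinarith [sq_nonneg ((x : ℝ) + w)]
    · positivity
  filter_upwards [sumU hL (show 0 < ε / 2 by positivity) r hU,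
    toN (show 0 ≤ VV L / (4 * w) by positivity) hε, var_le RH hB hL,
    eventually_ge_atTop 2] with T h1 h2 h3 h5
  have hpi := Real.pi_pos
  have hl : 0 < Real.log T := Real.log_pos (by linarith)
  have hc : 0 < Real.log T / (2 * Real.pi) := by positivity
  have e2 : ∫ t in (0 : ℝ)..T, qd (1 / (4 * w)) (-1 / 2) (w / 4)
      ((NN riemannZeta t (t + 2 * Real.pi * L / Real.log T) : ℝ) - r) =
      1 / (4 * w) * ∫ t in (0 : ℝ)..T,
        ((NN riemannZeta t (t + 2 * Real.pi * L / Real.log T) : ℝ) - L) ^ 2 := by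
    rw [← intervalIntegral.integral_const_mul]
    refine intervalIntegral.integral_congr fun t _ => ?_
    show qd _ _ _ _ = _
    unfold qd
    rw [hLr]
    field_simp
    ring
  rw [e2] at h1
  have e3 := mul_le_mul_of_nonneg_left h3 (show 0 ≤ 1 / (4 * w) by positivity)
  have e4 := mul_le_mul_of_nonneg_left e3 hc.le
  have e5 : Real.log T / (2 * Real.pi) * (1 / (4 * w) * (VV L * T)) +
      ε / 2 * (T * Real.log T / (2 * Real.pi)) =
      (VV L / (4 * w) + ε / 2) * (T * Real.log T / (2 * Real.pi)) := by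
    field_simp
  linarith

/-- the excess under a small distance -/
theorem excL (RH : RiemannHypothesis)
    (hB : ∀ ε : ℝ, 0 < ε → ∀ᶠ T in atTop, ∀ α ∈ Icc (1 : ℝ) (3 / 2), 3 / 2 - α - ε ≤ Fr T α)
    {L w ε : ℝ} (hL : 0 < L) (hw : 0 < w) (hε : 0 < ε) (r : ℕ) (hLr : L = r - w) : ∀ᶠ T in atTop,
    ∑ n ∈ Finset.Icc 1 (NZ T - r),
      max (L - (ord (n + r) - ord n) * Real.log T / (2 * Real.pi)) 0 ≤
      (VV L / (4 * w) + ε) * (NZ T : ℝ) := by
  have hV := VV_nonneg RH hB hL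
  have hU : ∀ x : ℤ, max (x : ℝ) 0 ≤ qd (1 / (4 * w)) (1 / 2) (w / 4) x := by
    intro x
    have e : qd (1 / (4 * w)) (1 / 2) (w / 4) (x : ℝ) = ((x : ℝ) + w) ^ 2 / (4 * w) := by
      unfold qd
      field_simp
      ring
    rw [e]
    apply max_le
    · rw [le_div_iff₀ (by positivity)]
      nlinarith [sq_nonneg ((x : ℝ) - w)]
    · positivity
  filter_upwards [sumL hL (show 0 < ε / 2 by positivity) r hU,
    toN (show 0 ≤ VV L / (4 * w) by positivity) hε, var_le RH hB hL,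
    eventually_ge_atTop 2] with T h1 h2 h3 h5
  have hpi := Real.pi_pos
  have hl : 0 < Real.log T := Real.log_pos (by linarith)
  have hc : 0 < Real.log T / (2 * Real.pi) := by positivity
  have e2 : ∫ t in (0 : ℝ)..T, qd (1 / (4 * w)) (1 / 2) (w / 4)
      ((NN riemannZeta t (t + 2 * Real.pi * L / Real.log T) : ℝ) - r) =
      1 / (4 * w) * ∫ t in (0 : ℝ)..T,
        ((NN riemannZeta t (t + 2 * Real.pi * L / Real.log T) : ℝ) - L) ^ 2 := by
    rw [← intervalIntegral.integral_const_mul]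
    refine intervalIntegral.integral_congr fun t _ => ?_
    show qd _ _ _ _ = _
    unfold qd
    rw [hLr]
    field_simp
    ring
  rw [e2] at h1
  have e3 := mul_le_mul_of_nonneg_left h3 (show 0 ≤ 1 / (4 * w) by positivity)
  have e4 := mul_le_mul_of_nonneg_left e3 hc.le
  have e5 : Real.log T / (2 * Real.pi) * (1 / (4 * w) * (VV L * T)) +
      ε / 2 * (T * Real.log T / (2 * Real.pi)) =
      (VV L / (4 * w) + ε / 2) * (T * Real.log T / (2 * Real.pi)) := by
    field_simp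
  linarith

end Run7.h719.RG
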