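import Pool.Agent.Run7.h719.CD.Pal

/-!
# The distance to the `m`-th neighbour and the number of zeros in windows, one-sided
-/

open MeasureTheory Set Filter Topology

namespace Run7.h719.RG

open SG (ord NZ)
open H370 (NN)
open Run7.h719.NV (cnt ind_int ind_val sq_int cnt_int NN_cnt)
open Run7.h719.CD (NZ_split)

lemma countU (m : ℕ) {t h : ℝ} (ht : 1 ≤ t) (hh : 0 ≤ h) {n1 : ℕ} (hn1 : 1 ≤ n1) (M : ℕ) :
    (((Finset.Icc n1 M).filter fun n => ord n ≤ t ∧ t < ord (n + m) - h).card : ℝ) ≤
      max ((m : ℝ) - (NN riemannZeta t (t + h) : ℝ)) 0 := by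
  classical
  obtain ⟨a, ha⟩ : ∃ a : ℕ, a = NZ t := ⟨_, rfl⟩
  obtain ⟨b, hb⟩ : ∃ b : ℕ, b = NZ (t + h) := ⟨_, rfl⟩
  have hs := NZ_split ht (show t ≤ t + h by linarith)
  rw [← ha, ← hb] at hs
  have h1 : ((Finset.Icc n1 M).filter fun n => ord n ≤ t ∧ t < ord (n + m) - h) ⊆
      Finset.Ioc (b - m) a := by
    intro n hn
    rw [Finset.mem_filter, Finset.mem_Icc] at hn
    rw [Finset.mem_Ioc]
    have h2 : n ≤ a := by
      rw [ha]
      exact (SG.ord_le_iff (by omega) t).1 hn.2.1
    have h3 : ¬ n + m ≤ b := by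
      intro h4
      rw [hb] at h4
      have := (SG.ord_le_iff (show 1 ≤ n + m by omega) (t + h)).2 h4
      linarith [hn.2.2]
    omega
  have c1 := Finset.card_le_card h1
  rw [Nat.card_Ioc] at c1
  have c3 : (((Finset.Icc n1 M).filter fun n => ord n ≤ t ∧ t < ord (n + m) - h).card : ℝ) ≤
      ((a - (b - m) : ℕ) : ℝ) := by exact_mod_cast c1
  refine c3.trans ?_
  have hs' : (NN riemannZeta t (t + h) : ℝ) = (b : ℝ) - a := by
    have : (a : ℝ) + NN riemannZeta t (t + h) = b := by exact_mod_cast hs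
    linarith
  rw [hs']
  rcases Nat.lt_or_ge b m with h3 | h3
  · have e : a - (b - m) = a := by omega
    rw [e]
    have : (b : ℝ) < m := by exact_mod_cast h3
    exact le_trans (by linarith) (le_max_left _ _)
  · rcases Nat.le_total a (b - m) with h4 | h4
    · have e : a - (b - m) = 0 := by omega
      rw [e, Nat.cast_zero]
      exact le_max_right _ _
    · rw [Nat.cast_sub h4, Nat.cast_sub h3]
      exact le_trans (by linarith) (le_max_left _ _)

lemma countL (m : ℕ) {t h : ℝ} (ht : 1 ≤ t) (hh : 0 ≤ h) {n1 : ℕ} (hn1 : 1 ≤ n1) (M : ℕ) :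
    (((Finset.Icc n1 M).filter fun n => ord (n + m) - h ≤ t ∧ t < ord n).card : ℝ) ≤
      max ((NN riemannZeta t (t + h) : ℝ) - m) 0 := by
  classical
  obtain ⟨a, ha⟩ : ∃ a : ℕ, a = NZ t := ⟨_, rfl⟩
  obtain ⟨b, hb⟩ : ∃ b : ℕ, b = NZ (t + h) := ⟨_, rfl⟩
  have hs := NZ_split ht (show t ≤ t + h by linarith)
  rw [← ha, ← hb] at hs
  have h1 : ((Finset.Icc n1 M).filter fun n => ord (n + m) - h ≤ t ∧ t < ord n) ⊆
      Finset.Ioc a (b - m) := by
    intro n hn
    rw [Finset.mem_filter, Finset.mem_Icc] at hn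
    rw [Finset.mem_Ioc]
    have h2 : n + m ≤ b := by
      rw [hb]
      exact (SG.ord_le_iff (by omega) (t + h)).1 (by linarith [hn.2.1])
    have h3 : ¬ n ≤ a := by
      intro h4
      rw [ha] at h4
      have := (SG.ord_le_iff (show 1 ≤ n by omega) t).2 h4
      linarith [hn.2.2]
    omega
  have c1 := Finset.card_le_card h1
  rw [Nat.card_Ioc] at c1
  have c3 : (((Finset.Icc n1 M).filter fun n => ord (n + m) - h ≤ t ∧ t < ord n).card : ℝ) ≤
      ((b - m - a : ℕ) : ℝ) := by exact_mod_cast c1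
  refine c3.trans ?_
  have hs' : (NN riemannZeta t (t + h) : ℝ) = (b : ℝ) - a := by
    have : (a : ℝ) + NN riemannZeta t (t + h) = b := by exact_mod_cast hs
    linarith
  rw [hs']
  rcases Nat.lt_or_ge b m with h3 | h3
  · have e : b - m - a = 0 := by omega
    rw [e, Nat.cast_zero]
    exact le_max_right _ _
  · rcases Nat.le_total a (b - m) with h4 | h4
    · rw [Nat.cast_sub h4, Nat.cast_sub h3]
      exact le_trans (by linarith) (le_max_left _ _)
    · have e : b - m - a = 0 := by omega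
      rw [e, Nat.cast_zero]
      exact le_max_right _ _

/-- a quadratic polynomial -/
def qd (a b c x : ℝ) : ℝ := a * x ^ 2 + b * x + c

lemma qd_int {T h : ℝ} (hT : 0 ≤ T) (hh : 0 ≤ h) (m : ℕ) (a b c : ℝ) :
    IntervalIntegrable (fun t => qd a b c ((NN riemannZeta t (t + h) : ℝ) - m)) volume 0 T := by
  have a1 : IntervalIntegrable (fun t => a * cnt (T + h) h t ^ 2) volume 0 T :=
    ((sq_int (T + h) h).intervalIntegrable).const_mul _
  have a2 : IntervalIntegrable (fun t => (b - 2 * a * m) * cnt (T + h) h t) volume 0 T :=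
    (cnt_int (T + h) h).intervalIntegrable.const_mul _
  have a3 : IntervalIntegrable (fun _ : ℝ => a * (m : ℝ) ^ 2 - b * m + c) volume 0 T := by simp
  refine ((a1.add a2).add a3).congr ?_
  intro t ht
  rw [uIoc_of_le hT] at ht
  show a * cnt (T + h) h t ^ 2 + (b - 2 * a * m) * cnt (T + h) h t + (a * (m : ℝ) ^ 2 - b * m + c) =
    qd a b c ((NN riemannZeta t (t + h) : ℝ) - m)
  rw [NN_cnt (U := T + h) ht.1.le (by linarith [ht.2])]
  unfold qd
  ring

/-- the sum over the zeros is at most the integral over the windows, large distances -/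
theorem palmU {T h : ℝ} (hT : 1 ≤ T) (hh : 0 ≤ h) (m : ℕ) {n1 : ℕ} (hn1 : 1 ≤ n1)
    (hord : ∀ n, n1 ≤ n → 1 ≤ ord n - h) {a b c : ℝ}
    (hq : ∀ x : ℤ, max (-(x : ℝ)) 0 ≤ qd a b c x) :
    ∑ n ∈ Finset.Icc n1 (NZ T - m), max (ord (n + m) - ord n - h) 0 ≤
      ∫ t in (0 : ℝ)..T, qd a b c ((NN riemannZeta t (t + h) : ℝ) - m) := by
  classical
  obtain ⟨f, hf⟩ : ∃ f : ℝ → ℝ, f = fun t => ∑ n ∈ Finset.Icc n1 (NZ T - m),
      (Ico (ord n) (ord (n + m) - h)).indicator (fun _ => (1 : ℝ)) t := ⟨_, rfl⟩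
  have hint : Integrable f := by
    rw [hf]
    exact integrable_finsetSum _ fun n _ => ind_int _ _
  have hval : ∫ t, f t = ∑ n ∈ Finset.Icc n1 (NZ T - m), max (ord (n + m) - ord n - h) 0 := by
    have e0 : ∫ t, f t = ∑ n ∈ Finset.Icc n1 (NZ T - m),
        ∫ t, (Ico (ord n) (ord (n + m) - h)).indicator (fun _ => (1 : ℝ)) t := by
      rw [hf]
      exact integral_finsetSum _ fun n _ => ind_int _ _
    rw [e0]
    refine Finset.sum_congr rfl fun n _ => ?_
    rw [ind_val]
    rcases le_total 0 (ord (n + m) - ord n - h) with h1 | h1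
    · rw [max_eq_left h1]
      first
        | (rw [max_eq_right (by linarith)]; ring)
        | (rw [max_eq_left (by linarith)]; ring)
    · rw [max_eq_right h1]
      first
        | (rw [max_eq_left (by linarith)])
        | (rw [max_eq_right (by linarith)])
  have hbd : ∀ n ∈ Finset.Icc n1 (NZ T - m), 1 ≤ ord n ∧ ord n ≤ T ∧ 1 ≤ ord (n + m) - h ∧
      ord (n + m) - h ≤ T := by
    intro n hn
    rw [Finset.mem_Icc] at hn
    have h1 := hord n hn.1
    have h2 := hord (n + m) (by omega)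
    have h3 : ord (n + m) ≤ T := (SG.ord_le_iff (by omega) T).2 (by omega)
    have h4 : ord n ≤ ord (n + m) := SG.ord_mono (by omega) (by omega)
    exact ⟨by linarith, by linarith, h2, by linarith⟩
  have hsupp : ∀ t, t ∉ Ioc 0 T → f t = 0 := by
    intro t ht
    rw [hf]
    refine Finset.sum_eq_zero fun n hn => ?_
    obtain ⟨b1, b2, b3, b4⟩ := hbd n hn
    rw [indicator_of_notMem]
    intro h1
    exact ht ⟨by linarith [h1.1], by linarith [h1.2]⟩
  have hle : ∀ t ∈ Icc (0 : ℝ) T, f t ≤ qd a b c ((NN riemannZeta t (t + h) : ℝ) - m) := by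
    intro t ht
    have hq' := hq ((NN riemannZeta t (t + h) : ℤ) - m)
    push_cast at hq'
    rw [neg_sub] at hq'
    rcases lt_or_ge t 1 with h1 | h1
    · have : f t = 0 := by
        rw [hf]
        refine Finset.sum_eq_zero fun n hn => ?_
        obtain ⟨b1, b2, b3, b4⟩ := hbd n hn
        rw [indicator_of_notMem]
        intro h1
        linarith [h1.1]
      rw [this]
      exact (le_max_right _ _).trans hq'
    · refine le_trans ?_ hq'
      refine le_trans (le_of_eq ?_) (countU m h1 hh hn1 (NZ T - m))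
      rw [hf, Finset.card_filter]
      push_cast
      refine Finset.sum_congr rfl fun n _ => ?_
      by_cases h2 : ord n ≤ t ∧ t < ord (n + m) - h
      · rw [if_pos h2, indicator_of_mem (show t ∈ Ico _ _ from h2)]
      · rw [if_neg h2, indicator_of_notMem (show t ∉ Ico _ _ from h2)]
  have e1 : ∫ t, f t = ∫ t in (0 : ℝ)..T, f t := by
    rw [intervalIntegral.integral_of_le (by linarith)]
    exact (setIntegral_eq_integral_of_forall_compl_eq_zero hsupp).symm
  rw [← hval, e1]
  exact intervalIntegral.integral_mono_on (by linarith) hint.intervalIntegrable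
    (qd_int (by linarith) hh m a b c) hle

/-- the sum over the zeros is at most the integral over the windows, small distances -/
theorem palmL {T h : ℝ} (hT : 1 ≤ T) (hh : 0 ≤ h) (m : ℕ) {n1 : ℕ} (hn1 : 1 ≤ n1)
    (hord : ∀ n, n1 ≤ n → 1 ≤ ord n - h) {a b c : ℝ}
    (hq : ∀ x : ℤ, max (x : ℝ) 0 ≤ qd a b c x) :
    ∑ n ∈ Finset.Icc n1 (NZ T - m), max (h - (ord (n + m) - ord n)) 0 ≤
      ∫ t in (0 : ℝ)..T, qd a b c ((NN riemannZeta t (t + h) : ℝ) - m) := by
  classical
  obtain ⟨f, hf⟩ : ∃ f : ℝ → ℝ, f = fun t => ∑ n ∈ Finset.Icc n1 (NZ T - m),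
      (Ico (ord (n + m) - h) (ord n)).indicator (fun _ => (1 : ℝ)) t := ⟨_, rfl⟩
  have hint : Integrable f := by
    rw [hf]
    exact integrable_finsetSum _ fun n _ => ind_int _ _
  have hval : ∫ t, f t = ∑ n ∈ Finset.Icc n1 (NZ T - m), max (h - (ord (n + m) - ord n)) 0 := by
    have e0 : ∫ t, f t = ∑ n ∈ Finset.Icc n1 (NZ T - m),
        ∫ t, (Ico (ord (n + m) - h) (ord n)).indicator (fun _ => (1 : ℝ)) t := by
      rw [hf]
      exact integral_finsetSum _ fun n _ => ind_int _ _
    rw [e0]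
    refine Finset.sum_congr rfl fun n _ => ?_
    rw [ind_val]
    rcases le_total 0 (h - (ord (n + m) - ord n)) with h1 | h1
    · rw [max_eq_left h1]
      first
        | (rw [max_eq_right (by linarith)]; ring)
        | (rw [max_eq_left (by linarith)]; ring)
    · rw [max_eq_right h1]
      first
        | (rw [max_eq_left (by linarith)])
        | (rw [max_eq_right (by linarith)])
  have hbd : ∀ n ∈ Finset.Icc n1 (NZ T - m), 1 ≤ ord n ∧ ord n ≤ T ∧ 1 ≤ ord (n + m) - h ∧
      ord (n + m) - h ≤ T := by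
    intro n hn
    rw [Finset.mem_Icc] at hn
    have h1 := hord n hn.1
    have h2 := hord (n + m) (by omega)
    have h3 : ord (n + m) ≤ T := (SG.ord_le_iff (by omega) T).2 (by omega)
    have h4 : ord n ≤ ord (n + m) := SG.ord_mono (by omega) (by omega)
    exact ⟨by linarith, by linarith, h2, by linarith⟩
  have hsupp : ∀ t, t ∉ Ioc 0 T → f t = 0 := by
    intro t ht
    rw [hf]
    refine Finset.sum_eq_zero fun n hn => ?_
    obtain ⟨b1, b2, b3, b4⟩ := hbd n hn
    rw [indicator_of_notMem]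
    intro h1
    exact ht ⟨by linarith [h1.1], by linarith [h1.2]⟩
  have hle : ∀ t ∈ Icc (0 : ℝ) T, f t ≤ qd a b c ((NN riemannZeta t (t + h) : ℝ) - m) := by
    intro t ht
    have hq' := hq ((NN riemannZeta t (t + h) : ℤ) - m)
    push_cast at hq'
    rcases lt_or_ge t 1 with h1 | h1
    · have : f t = 0 := by
        rw [hf]
        refine Finset.sum_eq_zero fun n hn => ?_
        obtain ⟨b1, b2, b3, b4⟩ := hbd n hn
        rw [indicator_of_notMem]
        intro h1
        linarith [h1.1]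
      rw [this]
      exact (le_max_right _ _).trans hq'
    · refine le_trans ?_ hq'
      refine le_trans (le_of_eq ?_) (countL m h1 hh hn1 (NZ T - m))
      rw [hf, Finset.card_filter]
      push_cast
      refine Finset.sum_congr rfl fun n _ => ?_
      by_cases h2 : ord (n + m) - h ≤ t ∧ t < ord n
      · rw [if_pos h2, indicator_of_mem (show t ∈ Ico _ _ from h2)]
      · rw [if_neg h2, indicator_of_notMem (show t ∉ Ico _ _ from h2)]
  have e1 : ∫ t, f t = ∫ t in (0 : ℝ)..T, f t := by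
    rw [intervalIntegral.integral_of_le (by linarith)]
    exact (setIntegral_eq_integral_of_forall_compl_eq_zero hsupp).symm
  rw [← hval, e1]
  exact intervalIntegral.integral_mono_on (by linarith) hint.intervalIntegrable
    (qd_int (by linarith) hh m a b c) hle

end Run7.h719.RG
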